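import Pool.Agent.Q240.GW.Final
import Pool.Agent.H575R3.GRWExist

/-!
# MP_1d885b_pr: the greedy random walk on the ladder is recurrent

`Pool.Agent.H575R3.GRW.IsGRW G o P X` (starting library) says that under `P` the process `X` is the
greedy random walk on the locally finite graph `G` started at `o`: given `X 0, …, X t`, the vertex
`X (t + 1)` is uniform on the neighbours of `X t` whose edge to `X t` was not traversed before, if there
are any, and uniform on all neighbours otherwise. On the ladder the walk exists, for every starting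
vertex, and almost surely it visits every vertex infinitely often.

Proof: the first coordinate minus the sum of the signs of the first traversals of rail edges is a
martingale. For every gap between two columns which is new, the first rail edge is first traversed
outwards, and the second one has, in expectation, sign at most `-1/4` (explicit superharmonic function).
So `R u(R) ≤ C + (3/4) (u(1) + … + u(R))` for the probabilities `u(m)` to reach the column `m` before
the origin, which forces `u(m) → 0`.
-/

set_option autoImplicit false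

open MeasureTheory Pool.Agent.H575R3.GRW

namespace Pool.Agent.Results.MP_1d885b_pr.RecurrentOnLadder

/-- The ladder `ℤ × ℤ_2`: `(n, i)` is joined to `(n + 1, i)` and `(n, 0)` to `(n, 1)`. -/
def ladder : SimpleGraph (ℤ × Bool) where
  Adj a b := (a.2 = b.2 ∧ (b.1 = a.1 + 1 ∨ a.1 = b.1 + 1)) ∨ (a.1 = b.1 ∧ a.2 ≠ b.2)
  symm := ⟨fun a b h => by
    rcases h with ⟨h1, h2⟩ | ⟨h1, h2⟩
    · exact Or.inl ⟨h1.symm, h2.symm⟩
    · exact Or.inr ⟨h1.symm, h2.symm⟩⟩
  loopless := ⟨fun a h => by
    rcases h with ⟨_, h2⟩ | ⟨_, h2⟩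
    · omega
    · exact h2 rfl⟩

lemma ladder_eq : ladder = Pool.Agent.Q240.GW.ladder := rfl

noncomputable instance : ladder.LocallyFinite := fun v => by
  have h : (ladder.neighborSet v).Finite := by
    have := Pool.Agent.Q240.GW.nbr_eq (p := fun _ => v) (t := 0)
    rw [ladder_eq, this]
    exact Finset.finite_toSet _
  exact h.fintype

lemma coe_fresh (x : ℕ → ℤ × Bool) (t : ℕ) :
    ((fresh ladder x t : Finset (ℤ × Bool)) : Set (ℤ × Bool)) =
      Pool.Agent.Q240.GW.fresh Pool.Agent.Q240.GW.ladder x t := by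
  ext y
  simp only [fresh, Finset.coe_filter, SimpleGraph.mem_neighborFinset, crossed, Finset.mem_image,
    Finset.mem_range, not_exists, not_and]
  rfl

lemma stepProb_eq (x : ℕ → ℤ × Bool) (t : ℕ) (y : ℤ × Bool) :
    stepProb ladder x t y =
      Pool.Agent.Q240.GW.unif
        (Pool.Agent.Q240.GW.options Pool.Agent.Q240.GW.ladder x t) y := by
  classical
  unfold stepProb Pool.Agent.Q240.GW.unif Pool.Agent.Q240.GW.options
  rw [← coe_fresh]
  by_cases h : (fresh ladder x t).Nonempty
  · rw [if_pos h, if_pos (Finset.coe_nonempty.mpr h), Set.ncard_coe_finset]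
    simp only [Finset.mem_coe]
  · rw [if_neg h, if_neg (fun h' => h (Finset.coe_nonempty.mp h'))]
    have e : (Pool.Agent.Q240.GW.ladder.neighborSet (x t)) =
        ((ladder.neighborFinset (x t) : Finset (ℤ × Bool)) : Set (ℤ × Bool)) := by
      rw [SimpleGraph.coe_neighborFinset]
      rfl
    rw [e, Set.ncard_coe_finset]
    simp only [Finset.mem_coe]

theorem result (o : ℤ × Bool) :
    (∃ (_ : MeasurableSpace (ℕ → ℤ × Bool)) (P : Measure (ℕ → ℤ × Bool)),
      IsGRW ladder o P (fun t ω => ω t)) ∧
    ∀ (Ω : Type) (_ : MeasurableSpace Ω) (P : Measure Ω) (X : ℕ → Ω → ℤ × Bool),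
      IsGRW ladder o P X → P {ω | ∀ v : ℤ × Bool, ∀ n, ∃ t, n ≤ t ∧ X t ω = v} = 1 := by
  constructor
  · refine exists_isGRW ladder (fun v => ?_) o
    refine ⟨(v.1 + 1, v.2), ?_⟩
    rw [SimpleGraph.mem_neighborFinset]
    exact Or.inl ⟨rfl, Or.inl rfl⟩
  · intro Ω _ P X h
    have : IsProbabilityMeasure P := ⟨h.prob⟩
    have hX : Pool.Agent.Q240.GW.IsGreedyWalk Pool.Agent.Q240.GW.ladder o P X := by
      refine ⟨h.meas, ?_, fun p t y => ?_⟩
      · have h1 : MeasurableSet {ω | X 0 ω = o} := h.meas 0 o
        exact (prob_compl_eq_zero_iff h1).mpr h.start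
      · rw [h.trans, stepProb_eq, mul_comm]
    have hall : ∀ᵐ ω ∂P, ∀ v : ℤ × Bool, ∃ᶠ t in Filter.atTop, X t ω = v :=
      ae_all_iff.mpr fun v => Pool.Agent.Q240.GW.recurrent hX v
    set S : Set Ω := {ω | ∀ v : ℤ × Bool, ∀ n, ∃ t, n ≤ t ∧ X t ω = v} with hS
    have hae : ∀ᵐ ω ∂P, ω ∈ S := by
      filter_upwards [hall] with ω hω v n
      obtain ⟨t, ht, hv⟩ := Filter.frequently_atTop.mp (hω v) n
      exact ⟨t, ht, hv⟩
    have h0 : P Sᶜ = 0 := mem_ae_iff.mp hae
    calc P S = P Set.univ := measure_congr (ae_eq_univ.mpr h0)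
      _ = 1 := measure_univ

end Pool.Agent.Results.MP_1d885b_pr.RecurrentOnLadder
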